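import Pool.Agent.Q297.IT.Main
import Pool.Agent.Q297.IT.Sharp

/-!
# Freiman-Ruzsa for iterated sumsets with the sharp dimension

If the `n`-fold sumset of a finite set `A` of integers has at most `L |A|` elements and
`log (2 L) ≤ n ^ k`, then `A` is covered by `(2 L) ^ (8 k C(ε))` translates of a centred convex
progression of volume at most `|A|` and of dimension at most
`max(1, (1 + ε) log₂ L / ⌊log₂ n⌋ + ε)`. The dimension is sharp.

Proof. By pigeonhole over the dyadic scales some `B = 2^i A` has `|B + B| ≤ K |B|` with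
`K = L^(1/⌊log₂ n⌋)`, and `|B| ≤ L |A|`. The near-polynomial theorem with the sharp dimension
(`MP_dd2a7c_co.SharpDimension`) covers `B`, hence `A`, by translates of a convex coset progression of
volume at most `|B|`; a dilate of the body (or a subgroup and a progression in it) brings the volume
down to `|A|`.
Sharpness: let `A` be the image of a box in `ℤ^d` under `x ↦ ∑ x_j W^j`, `W` large. Among few
translates of `ψ(ℤ^r ∩ B)`, `r < d`, which cover `A`, one contains `d + 1` points which are affinely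
independent in `ℤ^d`; by the pigeonhole principle and `|ℤ^r ∩ k B| ≤ (2 k)^r |ℤ^r ∩ B|` their
preimages satisfy an integer relation with small coefficients, so do the points: a contradiction.
-/

set_option autoImplicit false
open scoped Pointwise

namespace Pool.Agent.Results.MP_626a77_co.IteratedSumsetsSharp

open Pool.Agent.Q297.IT Pool.Agent.Y806.DF

universe u

/-- **Freiman-Ruzsa for iterated sumsets with the sharp dimension.** (1) In `ℤ`: if the `n`-fold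
sumset of the finite nonempty set `A` has at most `L |A|` elements and `log (2 L) ≤ n ^ k`, then `A`
is covered by at most `(2 L) ^ (8 k C)` translates, `C = (900/ε)^(4⌈3000/ε⌉)`, of a centred convex
progression of dimension at most `max(1, (1 + ε) log₂ L / ⌊log₂ n⌋ + ε)` and volume at most `|A|`.
(2) The same in every abelian group, with convex coset progressions. (3) Sharpness in `ℤ`: for all
`n ≥ 1`, `d` and `M` there is a finite nonempty `A ⊆ ℤ` with `|n A| ≤ n ^ d |A|` such that more than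
`M` translates are needed to cover `A` by a centred convex progression of dimension less than `d`
and volume at most `M |A|`. -/
theorem result :
    (∀ ε : ℝ, 0 < ε → ε ≤ 1 → ∀ k n : ℕ, 1 ≤ k → 2 ≤ n → ∀ (L : ℝ) (A : Finset ℤ), A.Nonempty →
      (((Fintype.piFinset fun _ : Fin n => A).image fun f => ∑ i, f i).card : ℝ) ≤
        L * (A.card : ℝ) →
      Real.log (2 * L) ≤ (n : ℝ) ^ k →
      ∃ (d : ℕ) (B : Set (Fin d → ℝ)) (ψ : (Fin d → ℤ) →+ ℤ) (T : Finset ℤ),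
        (d : ℝ) ≤ max 1 ((1 + ε) * (Real.logb 2 L / (Nat.log 2 n : ℝ)) + ε) ∧
        Convex ℝ B ∧ IsCompact B ∧ (interior B).Nonempty ∧ (∀ x ∈ B, -x ∈ B) ∧
        {x : Fin d → ℤ | (fun i => (x i : ℝ)) ∈ B}.ncard ≤ A.card ∧
        (T.card : ℝ) ≤ (2 * L) ^ (8 * k * (900 / ε) ^ (4 * ⌈3000 / ε⌉₊)) ∧
        ∀ a ∈ A, ∃ t ∈ T, ∃ x : Fin d → ℤ, (fun i => (x i : ℝ)) ∈ B ∧ a = t + ψ x) ∧
    (∀ ε : ℝ, 0 < ε → ε ≤ 1 → ∀ k n : ℕ, 1 ≤ k → 2 ≤ n →
      ∀ (Γ : Type u) [AddCommGroup Γ] [DecidableEq Γ] (L : ℝ) (A : Finset Γ), A.Nonempty →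
      (((Fintype.piFinset fun _ : Fin n => A).image fun f => ∑ i, f i).card : ℝ) ≤
        L * (A.card : ℝ) →
      Real.log (2 * L) ≤ (n : ℝ) ^ k →
      ∃ (d : ℕ) (B : Set (Fin d → ℝ)) (ψ : (Fin d → ℤ) →+ Γ) (H : AddSubgroup Γ) (T : Finset Γ),
        (d : ℝ) ≤ max 1 ((1 + ε) * (Real.logb 2 L / (Nat.log 2 n : ℝ)) + ε) ∧
        Convex ℝ B ∧ IsCompact B ∧ (interior B).Nonempty ∧ (∀ x ∈ B, -x ∈ B) ∧
        Finite H ∧
        {x : Fin d → ℤ | (fun i => (x i : ℝ)) ∈ B}.ncard * Nat.card H ≤ A.card ∧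
        (T.card : ℝ) ≤ (2 * L) ^ (8 * k * (900 / ε) ^ (4 * ⌈3000 / ε⌉₊)) ∧
        ∀ a ∈ A, ∃ t ∈ T, ∃ x : Fin d → ℤ, (fun i => (x i : ℝ)) ∈ B ∧
          ∃ h ∈ H, a = t + ψ x + h) ∧
    (∀ n d M : ℕ, 1 ≤ n → ∃ A : Finset ℤ, A.Nonempty ∧
      ((Fintype.piFinset fun _ : Fin n => A).image fun f => ∑ i, f i).card ≤ n ^ d * A.card ∧
      ∀ r < d, ∀ B : Set (Fin r → ℝ), Convex ℝ B → IsCompact B → (∀ x ∈ B, -x ∈ B) →
        {x : Fin r → ℤ | (fun i => (x i : ℝ)) ∈ B}.ncard ≤ M * A.card →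
        ∀ (ψ : (Fin r → ℤ) →+ ℤ) (T : Finset ℤ),
        (∀ a ∈ A, ∃ t ∈ T, ∃ x : Fin r → ℤ, (fun i => (x i : ℝ)) ∈ B ∧ a = t + ψ x) →
          M < T.card) := by
  refine ⟨?_, ?_, ?_⟩
  · intro ε h0 h1 k n hk hn L A hA hL hkn
    obtain ⟨d, B, ψ, H, T, hd, hB, hH, hvol, hT, hcov⟩ := iterated h0 h1 hk hn hA hL hkn
    have hH0 : ∀ h ∈ H, h = 0 := by
      intro h hh
      have h1 : IsOfFinAddOrder (⟨h, hh⟩ : H) := isOfFinAddOrder_of_finite _
      obtain ⟨k, hk, hk2⟩ := isOfFinAddOrder_iff_nsmul_eq_zero.1 h1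
      have h3 : k • h = 0 := congrArg Subtype.val hk2
      rw [nsmul_eq_mul] at h3
      rcases mul_eq_zero.1 h3 with h5 | h5
      · have : k = 0 := by exact_mod_cast h5
        omega
      · exact h5
    refine ⟨d, B, ψ, T, hd, hB.1, hB.2.1, hB.2.2.1, hB.2.2.2, ?_, hT, ?_⟩
    · have h2 : 0 < Nat.card H := Nat.card_pos
      exact (Nat.le_mul_of_pos_right _ h2).trans hvol
    · intro a ha
      obtain ⟨t, ht, x, hx, h, hh, e⟩ := hcov a ha
      exact ⟨t, ht, x, hx, by rw [e, hH0 h hh, add_zero]⟩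
  · intro ε h0 h1 k n hk hn Γ _ _ L A hA hL hkn
    obtain ⟨d, B, ψ, H, T, hd, hB, hH, hvol, hT, hcov⟩ := iterated h0 h1 hk hn hA hL hkn
    exact ⟨d, B, ψ, H, T, hd, hB.1, hB.2.1, hB.2.2.1, hB.2.2.2, hH, hvol, hT, hcov⟩
  · intro n d M hn
    obtain ⟨A, hA, hA2, h⟩ := sharp_int n d M hn
    exact ⟨A, hA, hA2, fun r hr B hB1 hB2 hB3 hvol ψ T hcov => h r hr B hB1 hB2 hB3 hvol ψ T hcov⟩

end Pool.Agent.Results.MP_626a77_co.IteratedSumsetsSharp
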