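import Pool.Agent.Q130.HE.Fin

/-!
# Polynomial Freiman-Ruzsa theorem for sums of `m ≥ (log K) ^ ε` sets

Let `Γ` be a torsion-free abelian group (for instance `ℤ`), `K ≥ 1` and `m ≥ 2`, and let
`W = (2 K) ^ (10 ^ 9 (1 + log (1 + log 2K) / log m))`.

1. Let `φ₁, ..., φ_m` be injective homomorphisms from `Γ` to an abelian group (for instance the
   multiplications by nonzero integers). If the equation `φ₁(a₁ - b₁) + ... + φ_m(a_m - b_m) = 0`
   has at least `|A| ^ (2 m - 1) / K` solutions in the set `A`, then some translate of a centred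
   convex progression of dimension at most `330000 (1 + log K / log m)` and volume at most `|A|`
   contains at least `|A| / W` elements of `A`.
2. If `|A₁ + ... + A_m| ≤ K |A_i|` for all `i`, then there is one centred convex progression, of
   dimension at most `330000 (1 + log K / log m)` and volume at most `min |A_i|`, such that every
   `A_i` is covered by `W` of its translates.
3. If `|φ₁ A + ... + φ_m A| ≤ K |A|` for injective homomorphisms `φ_i` as in 1, then `A` is covered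
   by `W` translates of a centred convex progression of dimension at most
   `330000 (1 + log K / log m)` and volume at most `|A|`.
4. The exponent of `2 K` in `W` is at most `3 * 10 ^ 9 / ε` if `m ≥ (log 2K) ^ ε`.
-/

set_option autoImplicit false

open Finset
open scoped Pointwise

namespace Pool.Agent.Results.MP_626a77_co.ManySummands

/-- **The polynomial Freiman-Ruzsa theorem for energies of high order and for sums of many
sets.** -/
theorem result {Γ : Type*} [AddCommGroup Γ] [DecidableEq Γ]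
    (htf : ∀ (n : ℕ) (x : Γ), n ≠ 0 → n • x = 0 → x = 0) (K : ℝ) (hK : 1 ≤ K)
    (m : ℕ) (hm : 2 ≤ m) :
    (∀ (Δ : Type) [AddCommGroup Δ] [DecidableEq Δ] (φ : Fin m → Γ →+ Δ),
      (∀ i, Function.Injective (φ i)) → ∀ A : Finset Γ, A.Nonempty →
      (A.card : ℝ) ^ (2 * m - 1) ≤
        K * ((((Fintype.piFinset fun _ : Fin m => A) ×ˢ (Fintype.piFinset fun _ : Fin m => A)).filter
          fun p => ∑ i, φ i (p.1 i) = ∑ i, φ i (p.2 i)).card : ℝ) →
      ∃ (d : ℕ) (B : Set (Fin d → ℝ)) (ψ : (Fin d → ℤ) →+ Γ) (t : Γ),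
        (d : ℝ) ≤ 330000 * (1 + Real.log K / Real.log m) ∧
        Convex ℝ B ∧ IsCompact B ∧ (interior B).Nonempty ∧ (∀ x ∈ B, -x ∈ B) ∧
        {x : Fin d → ℤ | (fun i => (x i : ℝ)) ∈ B}.Finite ∧
        {x : Fin d → ℤ | (fun i => (x i : ℝ)) ∈ B}.ncard ≤ A.card ∧
        (A.card : ℝ) ≤
          (2 * K) ^ ((10 : ℝ) ^ 9 * (1 + Real.log (1 + Real.log (2 * K)) / Real.log m)) *
          (({a | a ∈ A ∧ ∃ x : Fin d → ℤ, (fun i => (x i : ℝ)) ∈ B ∧ a = t + ψ x} :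
            Set Γ).ncard : ℝ)) ∧
    (∀ A : Fin m → Finset Γ, (∀ i, (A i).Nonempty) →
      (∀ i, ((∑ j, A j).card : ℝ) ≤ K * (A i).card) →
      ∃ (d : ℕ) (B : Set (Fin d → ℝ)) (ψ : (Fin d → ℤ) →+ Γ),
        (d : ℝ) ≤ 330000 * (1 + Real.log K / Real.log m) ∧
        Convex ℝ B ∧ IsCompact B ∧ (interior B).Nonempty ∧ (∀ x ∈ B, -x ∈ B) ∧
        {x : Fin d → ℤ | (fun i => (x i : ℝ)) ∈ B}.Finite ∧
        (∀ i, {x : Fin d → ℤ | (fun i => (x i : ℝ)) ∈ B}.ncard ≤ (A i).card) ∧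
        ∀ i, ∃ T : Finset Γ,
          (T.card : ℝ) ≤
            (2 * K) ^ ((10 : ℝ) ^ 9 * (1 + Real.log (1 + Real.log (2 * K)) / Real.log m)) ∧
          ∀ a ∈ A i, ∃ t ∈ T, ∃ x : Fin d → ℤ, (fun i => (x i : ℝ)) ∈ B ∧ a = t + ψ x) ∧
    (∀ (Δ : Type) [AddCommGroup Δ] [DecidableEq Δ] (φ : Fin m → Γ →+ Δ),
      (∀ i, Function.Injective (φ i)) → ∀ A : Finset Γ, A.Nonempty →
      ((∑ j, A.image (φ j)).card : ℝ) ≤ K * A.card →
      ∃ (d : ℕ) (B : Set (Fin d → ℝ)) (ψ : (Fin d → ℤ) →+ Γ) (T : Finset Γ),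
        (d : ℝ) ≤ 330000 * (1 + Real.log K / Real.log m) ∧
        Convex ℝ B ∧ IsCompact B ∧ (interior B).Nonempty ∧ (∀ x ∈ B, -x ∈ B) ∧
        {x : Fin d → ℤ | (fun i => (x i : ℝ)) ∈ B}.Finite ∧
        {x : Fin d → ℤ | (fun i => (x i : ℝ)) ∈ B}.ncard ≤ A.card ∧
        (T.card : ℝ) ≤
          (2 * K) ^ ((10 : ℝ) ^ 9 * (1 + Real.log (1 + Real.log (2 * K)) / Real.log m)) ∧
        ∀ a ∈ A, ∃ t ∈ T, ∃ x : Fin d → ℤ, (fun i => (x i : ℝ)) ∈ B ∧ a = t + ψ x) ∧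
    (∀ ε : ℝ, 0 < ε → ε ≤ 1 → Real.log (2 * K) ^ ε ≤ m →
      (10 : ℝ) ^ 9 * (1 + Real.log (1 + Real.log (2 * K)) / Real.log m) ≤ 3 * 10 ^ 9 / ε) := by
  refine ⟨?_, ?_, ?_, ?_⟩
  · intro Δ _ _ φ hφ A hA hE
    obtain ⟨d, B, ψ, t, hd, hB, hvol, hbig⟩ := Pool.Agent.Q130.HE.part1 htf hK hm φ hφ hA hE
    exact ⟨d, B, ψ, t, hd, hB.conv, hB.comp, hB.inter, hB.symm, hB.fin1, hvol, hbig⟩
  · intro A hA h
    obtain ⟨d, B, ψ, hd, hB, hvol, hcov⟩ := Pool.Agent.Q130.HE.part2 htf hK hm A hA h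
    exact ⟨d, B, ψ, hd, hB.conv, hB.comp, hB.inter, hB.symm, hB.fin1, hvol, hcov⟩
  · intro Δ _ _ φ hφ A hA h
    obtain ⟨d, B, ψ, T, hd, hB, hvol, hT, hcov⟩ := Pool.Agent.Q130.HE.part3 htf hK hm φ hφ hA h
    exact ⟨d, B, ψ, T, hd, hB.conv, hB.comp, hB.inter, hB.symm, hB.fin1, hvol, hT, hcov⟩
  · intro ε hε hε1 h
    exact Pool.Agent.Q130.HE.expo_eps hK hm hε hε1 h

end Pool.Agent.Results.MP_626a77_co.ManySummands
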