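import Pool.Agent.H104.MC.Int

/-!
# The polynomial Freiman-Ruzsa conjecture in the integers: sums of dilates, images, no volume bound

`Body B` says that `B` is a centrally symmetric convex body, `lat B` is the set of the integer
points of `B`, `hull X` the set of the integer points of the convex hull of `X`.

* `ConcZ A L`: the conclusion of Q1 for the set `A` of integers, with a parameter `L` in place of
  `K`: some centred convex progression of dimension at most `500 log (2 L)` and volume at most `|A|`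
  has at most `5000 L ^ 5000` translates which cover `A`. `Conc A L` is the same in an arbitrary
  abelian group, with a centred convex coset progression `ψ(ℤ ^ d ∩ B) + H`, `H` a finite subgroup,
  of volume `|ℤ ^ d ∩ B| |H|`.
* `WeakZ A K`: for some nonempty finite set `X` of integer points of a space `ℝ ^ d` of any
  dimension, with `|X + X| ≤ K |X|` and `|ℤ ^ d ∩ conv X| ≤ K |X|`, some homomorphism
  `ψ : ℤ ^ d → ℤ` and some integer `g`: `|ψ(X)| ≤ K |A|` and `|A| ≤ K |A ∩ (g + ψ(X))|`. Nothing is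
  assumed about the injectivity of `ψ`, and there is no bound for `d` or `|X|`.
* `Q1Z`: the statement of Q1.

Proof. Products of sets which satisfy the conclusion satisfy it (products of convex bodies), so the
theorem on sums of homomorphic images is a theorem on one homomorphism. The image of a convex
progression of dimension `n` may be improper, of much larger volume than the number of its elements.
By the Milman position of a convex body and the Voronoi cell of the kernel, it is covered by
`C ^ n` translates of a proper convex progression of the same size.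
-/

set_option autoImplicit false

namespace Pool.Agent.Results.MP_626a77_co.SumsOfDilates

open Finset
open scoped Pointwise
open Pool.Agent.Y806.DF Q123.VP H104.MC

universe u

/-- (1) If the finite nonempty sets `A_i ⊆ ℤ`, `i = 1, ..., k`, satisfy `|A_i + A_i| ≤ K |A_i|` and the
conclusion of Q1 with `L ≥ 1` in place of `K`, then for all integers `l_i` the sum of the dilates
`l_1 A_1 + ... + l_k A_k` satisfies the conclusion of Q1 with `(2 (2 L) ^ k) ^ 20150 (K ^ k) ^ 6` in
place of `K`.
(2) The same for all sums `φ_1(A_1) + ... + φ_k(A_k) ⊆ ℤ` of homomorphic images of sets of arbitrary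
abelian groups.
(3) If `|A + A| ≤ K |A|` and `WeakZ A K` then the conclusion of Q1 holds for `A` with
`(2 K) ^ 14000` in place of `K`; if it holds with `L ≥ 1` then `WeakZ A ((2 L) ^ 5000)`.
(4) Q1 is equivalent to the statement that for some `C`, `WeakZ A (C K ^ C)` holds for all `K ≥ 2` and
all finite nonempty `A ⊆ ℤ` with `|A + A| ≤ K |A|`.
(5) Let `P = ψ(ℤ ^ n ∩ B)` be a centred convex progression of dimension `n` in `ℤ`, as improper as
one likes, with `|P|` elements, and `N ≥ 1` real. Then `P` is covered by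
`(2 * 10 ^ 8) ^ n max(1, |P| / N)` translates of a PROPER centred convex progression of dimension `n`
and volume at most `N`. -/
theorem result :
    (∀ (k : ℕ) (l : Fin k → ℤ) (A : Fin k → Finset ℤ) (K L : ℝ), (∀ i, (A i).Nonempty) → 1 ≤ L →
      (∀ i, ((A i + A i).card : ℝ) ≤ K * (A i).card) → (∀ i, ConcZ (A i) L) →
      ConcZ ((Fintype.piFinset A).image fun a => ∑ i, l i * a i)
        ((2 * (2 * L) ^ k) ^ 20150 * (K ^ k) ^ 6)) ∧
    (∀ (k : ℕ) (Γ : Fin k → Type u) [∀ i, AddCommGroup (Γ i)] [∀ i, DecidableEq (Γ i)]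
      (φ : ∀ i, Γ i →+ ℤ) (A : ∀ i, Finset (Γ i)) (K L : ℝ), (∀ i, (A i).Nonempty) → 1 ≤ L →
      (∀ i, ((A i + A i).card : ℝ) ≤ K * (A i).card) → (∀ i, Conc (A i) L) →
      ConcZ ((Fintype.piFinset A).image fun a => ∑ i, φ i (a i))
        ((2 * (2 * L) ^ k) ^ 20150 * (K ^ k) ^ 6)) ∧
    (∀ A : Finset ℤ, A.Nonempty →
      (∀ K : ℝ, ((A + A).card : ℝ) ≤ K * A.card → WeakZ A K → ConcZ A ((2 * K) ^ 14000)) ∧
      ∀ L : ℝ, 1 ≤ L → ConcZ A L → WeakZ A ((2 * L) ^ 5000)) ∧
    (Q1Z ↔ ∃ C : ℝ, ∀ (K : ℝ) (A : Finset ℤ), 2 ≤ K → A.Nonempty →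
      ((A + A).card : ℝ) ≤ K * A.card → WeakZ A (C * K ^ C)) ∧
    (∀ (n : ℕ) (B : Set (Fin n → ℝ)) (ψ : (Fin n → ℤ) →+ ℤ) (N : ℝ), Body B → 1 ≤ N →
      ∃ (B' : Set (Fin n → ℝ)) (F : Finset ℤ), Body B' ∧ Set.InjOn ψ (lat B') ∧
        ((lat B').ncard : ℝ) ≤ N ∧
        (F.card : ℝ) ≤ (2 * 10 ^ 8) ^ n * max 1 ((ψ '' lat B).ncard / N) ∧
        ∀ g ∈ ψ '' lat B, ∃ f ∈ F, ∃ w ∈ lat B', g = f + ψ w) := by
  refine ⟨?_, ?_, ?_, q1Z_iff, ?_⟩
  · intro k l A K L hA hL hK h
    exact dilates l A hA hL hK h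
  · intro k Γ _ _ φ A K L hA hL hK h
    exact concZ_of_conc (conc_sums φ A hA hL hK h)
  · intro A hA
    exact ⟨fun K hK h => concZ_of_weakZ hA hK h, fun L hL h => weakZ_of_concZ hA hL h⟩
  · intro n B ψ N hB hN
    have hbot : Nat.card (⊥ : AddSubgroup ℤ) = 1 := by simp
    obtain ⟨B', F, h1, h2, h3, h4, h5⟩ := conv_cover hB ψ ⊥ (N := N) (by
      rw [hbot, Nat.cast_one]
      exact hN)
    have himg : img ψ ⊥ (lat B) = ψ '' lat B := by
      ext g
      constructor
      · rintro ⟨x, hx, h, hh, rfl⟩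
        rw [AddSubgroup.mem_bot] at hh
        exact ⟨x, hx, by rw [hh, add_zero]⟩
      · rintro ⟨x, hx, rfl⟩
        exact ⟨x, hx, 0, AddSubgroup.zero_mem _, (add_zero _).symm⟩
    rw [hbot, Nat.cast_one, mul_one] at h3
    rw [himg] at h4 h5
    refine ⟨B', F, h1, ?_, h3, h4, ?_⟩
    · intro x hx y hy hxy
      have h6 : ((x, 0) : (Fin n → ℤ) × ℤ) = (y, 0) := by
        refine h2 ⟨hx, AddSubgroup.zero_mem _⟩ ⟨hy, AddSubgroup.zero_mem _⟩ ?_
        show ψ x + 0 = ψ y + 0
        rw [hxy]
      exact congrArg Prod.fst h6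
    · intro g hg
      obtain ⟨f, hf, w, hw, h, hh, e⟩ := h5 g hg
      rw [AddSubgroup.mem_bot] at hh
      exact ⟨f, hf, w, hw, by rw [e, hh, add_zero]⟩

end Pool.Agent.Results.MP_626a77_co.SumsOfDilates
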